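import Pool.Agent.Lib.MP_ab1175_al.HD.Main

namespace Pool.Agent.Results.MP_ab1175_al.HallDichotomy

open Pool.Agent.Lib.MP_ab1175_al

/-- In a small soluble variety every finitely generated group satisfies the maximal condition on
normal subgroups. -/
theorem result (L : Set (FreeGroup ℕ)) (hsol : SolubleVar L) (hsmall : SmallVar L)
    (G : Type) [Group G] (hG : InVar L G) (hfg : Group.FG G) (N : ℕ → Subgroup G)
    (hn : ∀ n, (N n).Normal) (hm : Monotone N) : ∃ n, ∀ m, n ≤ m → N m = N n :=
  (HD.small_iff L hsol).1 hsmall G hG hfg N hn hm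

/-- The converse of the question follows. -/
theorem converse (L : Set (FreeGroup ℕ)) (hsol : SolubleVar L) (hsmall : SmallVar L)
    (G : Type) [Group G] (hG : InVar L G) (hfg : Group.FG G) : Hopfian G :=
  HD.hopf_of_chain (result L hsol hsmall G hG hfg)

end Pool.Agent.Results.MP_ab1175_al.HallDichotomy
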