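import Pool.Agent.Lib.MP_ab1175_al.Main

namespace Pool.Agent.Results.MP_ab1175_al.HopfSmall

open Pool.Agent.Lib.MP_ab1175_al

/-- A soluble variety of groups all of whose finitely generated members are Hopfian is small. -/
theorem result (L : Set (FreeGroup ℕ)) (hsol : SolubleVar L)
    (hHopf : ∀ (G : Type) [Group G], InVar L G → Group.FG G → Hopfian G) : SmallVar L := by
  have := small_of_hopf L hsol hHopf
  exact Cardinal.mk_le_aleph0.trans_lt Cardinal.aleph0_lt_continuum

end Pool.Agent.Results.MP_ab1175_al.HopfSmall
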